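import Pool.Agent.TH327.NStarCCC
import Pool.Agent.W684.FM.Ambient
import Pool.Agent.Y582.CG.Cont

/-!
# The set `F` of a nowhere dense configuration is not `κ`-c.c. over Fin if Martin's axiom holds for
`κ` dense sets

This is the argument of `Pool.Agent.TH327.MAColor` and `NStarCCC` with `ℵ₁` replaced by an arbitrary
infinite cardinal.
-/

set_option autoImplicit false

namespace Pool.Agent.Y582.NC

open Classical Cardinal Set Filter Topology Pool.Agent.W684 Pool.Agent.W684.FM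
open Pool.Agent.TH327 Pool.Agent.TH327.MAColor Pool.Agent.TH327.NStarCCC
open Pool.Agent.Y582.CG (lt_continuum masc)
open scoped BoundedContinuousFunction

section

theorem colour {κ : Cardinal.{0}} (hκ : ℵ₀ ≤ κ) (hMA : MartinAxiomCard κ) {ι : Type}
    {x : ι → ℕ → Bool} {C : ι → Set ℕ} {k : ℕ}
    (hC : ∀ b : Finset ι, b.card = k + 1 → {m | ∀ i ∈ b, m ∈ C i}.Finite)
    (hk : 0 < k) (hx : Function.Injective x) (hι : #ι ≤ κ) :
    ∃ e : ι → ℕ → Fin (2 * k), ∀ i j, i ≠ j → {m | m ∈ C i ∧ m ∈ C j ∧ e i m = e j m}.Finite := by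
  haveI : Nonempty (Cond C k) := ⟨⟨∅, 0, fun _ _ => ⟨0, by omega⟩, by simp⟩⟩
  let D : ι ⊕ ℕ → Set (Cond C k) := Sum.elim (fun i => {p | i ∈ p.a}) (fun N => {p | N ≤ p.n})
  have hD : ∀ s ∈ Set.range D, ∀ p : Cond C k, ∃ q ∈ s, q ≤ p := by
    rintro _ ⟨s, rfl⟩ p
    rcases s with i | N
    · obtain ⟨r, h1, -, h3, -⟩ := Cond.common hC hk p p rfl (fun _ _ _ _ _ => rfl) {i} 0
      exact ⟨r, h3 (Finset.mem_singleton_self i), h1⟩
    · obtain ⟨r, h1, -, -, h4⟩ := Cond.common hC hk p p rfl (fun _ _ _ _ _ => rfl) ∅ N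
      exact ⟨r, h4, h1⟩
  have hcard : #(Set.range D) ≤ κ := by
    refine Cardinal.mk_range_le.trans ?_
    rw [Cardinal.mk_sum]
    simp only [Cardinal.lift_id, Cardinal.mk_nat]
    exact Cardinal.add_le_of_le hκ hι hκ
  obtain ⟨G, hGne, hGup, hGdir, hGD⟩ := hMA (Cond C k) (ccc x hC hk hx) (Set.range D) hcard hD
  have hgi : ∀ i, ∃ q ∈ G, i ∈ q.a := by
    intro i
    obtain ⟨q, hq, hq'⟩ := hGD _ ⟨Sum.inl i, rfl⟩
    exact ⟨q, hq, hq'⟩
  have hgN : ∀ N, ∃ q ∈ G, N ≤ q.n := by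
    intro i
    obtain ⟨q, hq, hq'⟩ := hGD _ ⟨Sum.inr i, rfl⟩
    exact ⟨q, hq, hq'⟩
  have hval : ∀ i m, ∃ q ∈ G, i ∈ q.a ∧ m < q.n := by
    intro i m
    obtain ⟨q, hq, hqi⟩ := hgi i
    obtain ⟨q', hq', hqm⟩ := hgN (m + 1)
    obtain ⟨r, hr, hrq, hrq'⟩ := hGdir q hq q' hq'
    exact ⟨r, hr, hrq.1 hqi, lt_of_lt_of_le (Nat.lt_of_succ_le hqm) hrq'.2.1⟩
  choose Q hQG hQi hQm using hval
  have hwell : ∀ i m, ∀ q ∈ G, i ∈ q.a → m < q.n → (Q i m).e i m = q.e i m := by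
    intro i m q hq hiq hmq
    obtain ⟨r, hr, hrq, hrq'⟩ := hGdir q hq (Q i m) (hQG i m)
    rw [← hrq.2.2.1 i hiq m hmq, ← hrq'.2.2.1 i (hQi i m) m (hQm i m)]
  refine ⟨fun i m => (Q i m).e i m, fun i j hij => ?_⟩
  obtain ⟨q1, hq1, hi1⟩ := hgi i
  obtain ⟨q2, hq2, hi2⟩ := hgi j
  obtain ⟨q, hq, hqq1, hqq2⟩ := hGdir q1 hq1 q2 hq2
  have hiq := hqq1.1 hi1
  have hjq := hqq2.1 hi2
  apply (Set.finite_lt_nat q.n).subset
  rintro m ⟨hmi, hmj, hm⟩
  by_contra hcon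
  simp only [Set.mem_ofPred_eq, not_lt] at hcon
  obtain ⟨q3, hq3, hn3⟩ := hgN (m + 1)
  obtain ⟨r, hr, hrq, hrq3⟩ := hGdir q hq q3 hq3
  have hmr : m < r.n := lt_of_lt_of_le (Nat.lt_of_succ_le hn3) hrq3.2.1
  have h1 := hwell i m r hr (hrq.1 hiq) hmr
  have h2 := hwell j m r hr (hrq.1 hjq) hmr
  exact hrq.2.2.2 m hcon hmr i hiq j hjq hij hmi hmj (by rw [← h1, ← h2]; exact hm)

/-- The main theorem: under `MA_κ` there are `κ` pairwise disjoint clopen sets which meet the set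
`F` of a configuration. -/
theorem main {κ : Cardinal.{0}} (hκ : ℵ₀ ≤ κ) (hMA : MartinAxiomCard κ)
    {T : C(NStar, ℝ) →L[ℝ] C(NStar, ℝ)} {A : Set ℕ}
    {F : Set NStar} {ψ : F → NStar} (h : IsConfiguration T A F ψ) :
    ∃ 𝒜 : Set (Set ℕ), #𝒜 = κ ∧ (∀ B ∈ 𝒜, B.Infinite ∧ (remainder B ∩ F).Nonempty) ∧
      (∀ B ∈ 𝒜, ∀ B' ∈ 𝒜, B ≠ B' → (B ∩ B').Finite) := by
  obtain ⟨S, hS⟩ : ∃ S : Set (ℕ → Bool), #S = κ := by
    have h : κ ≤ #(ℕ → Bool) := by
      have : #(ℕ → Bool) = 𝔠 := by simp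
      rw [this]
      exact (lt_continuum hκ (masc hMA)).le
    exact Cardinal.le_mk_iff_exists_set.1 h
  let B : S → Set ℕ := fun y => branchSet A y.1
  have hBinf : ∀ y, (B y).Infinite := fun y => branchSet_infinite h.infinite y.1
  have hBA : ∀ y, B y ⊆ A := fun y => branchSet_subset h.infinite y.1
  have hBB : ∀ y z, y ≠ z → (B y ∩ B z).Finite := fun y z hyz =>
    branchSet_inter h.infinite (fun h => hyz (Subtype.ext h))
  -- the points of `F`
  have hp : ∀ y : S, ∃ p : F, B y ∈ (ψ p).1 := by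
    intro y
    obtain ⟨q, hq⟩ := exists_nstar (hBinf y)
    have : q ∈ Set.range ψ := by
      rw [h.range_eq]
      exact Filter.mem_of_superset hq (hBA y)
    obtain ⟨p, rfl⟩ := this
    exact ⟨p, hq⟩
  choose p hp using hp
  have hTp : ∀ y, T (NStarCCC.star (ind (B y))) (p y) = 1 := by
    intro y
    rw [h.eq_on (ind (B y)) (fun n hn => ind_of_notMem fun hn' => hn (hBA y hn')) (p y)]
    exact star_ind_of_mem (hp y)
  have hC : ∀ y, ∃ C : Set ℕ, C ∈ (p y).1.1 ∧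
      ∀ q : NStar, C ∈ q.1 → 1 / 2 < T (NStarCCC.star (ind (B y))) q := by
    intro y
    have hopen : IsOpen {q : NStar | 1 / 2 < T (NStarCCC.star (ind (B y))) q} :=
      isOpen_lt continuous_const (T (NStarCCC.star (ind (B y)))).continuous
    have hmem : (p y).1 ∈ {q : NStar | 1 / 2 < T (NStarCCC.star (ind (B y))) q} := by
      rw [Set.mem_ofPred_eq, hTp y]
      norm_num
    exact exists_basic hopen hmem
  choose C hCp hCT using hC
  obtain ⟨k', hk'⟩ := exists_nat_ge (2 * ‖T‖)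
  obtain ⟨k, hk⟩ : ∃ k : ℕ, k = k' + 1 := ⟨_, rfl⟩
  have hkT : 2 * ‖T‖ ≤ k := by
    rw [hk]; push_cast; linarith
  -- any `k + 1` of the sets `C y` have a finite intersection
  have hfin : ∀ b : Finset S, b.card = k + 1 → {m | ∀ y ∈ b, m ∈ C y}.Finite := by
    intro b hb
    by_contra hinf
    obtain ⟨q, hq⟩ := exists_nstar (show ({m | ∀ y ∈ b, m ∈ C y} : Set ℕ).Infinite from hinf)
    have hqC : ∀ y ∈ b, C y ∈ q.1 := fun y hy =>
      Filter.mem_of_superset hq fun m hm => hm y hy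
    have hnorm : ‖∑ y ∈ b, NStarCCC.star (ind (B y))‖ ≤ 1 := by
      rw [ContinuousMap.norm_le _ zero_le_one]
      intro r
      rw [ContinuousMap.sum_apply]
      by_cases hr : ∃ y ∈ b, B y ∈ r.1
      · obtain ⟨y, hy, hyr⟩ := hr
        rw [Finset.sum_eq_single_of_mem y hy, star_ind_of_mem hyr]
        · simp
        · intro z _ hzy
          apply star_ind_of_notMem
          intro hzr
          exact r.infinite (Filter.inter_mem hyr hzr) (hBB y z (Ne.symm hzy))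
      · push Not at hr
        rw [Finset.sum_eq_zero fun y hy => star_ind_of_notMem (hr y hy)]
        simp
    have h1 : ‖T (∑ y ∈ b, NStarCCC.star (ind (B y)))‖ ≤ ‖T‖ := by
      refine (T.le_opNorm _).trans ?_
      nlinarith [norm_nonneg T]
    have h2 : ‖T (∑ y ∈ b, NStarCCC.star (ind (B y))) q‖ ≤ ‖T‖ :=
      (ContinuousMap.norm_coe_le_norm _ q).trans h1
    have h3 : ((k : ℝ) + 1) / 2 ≤ T (∑ y ∈ b, NStarCCC.star (ind (B y))) q := by
      rw [map_sum, ContinuousMap.sum_apply]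
      calc ((k : ℝ) + 1) / 2 = ∑ _y ∈ b, (1 / 2 : ℝ) := by
            rw [Finset.sum_const, hb, nsmul_eq_mul, Nat.cast_add, Nat.cast_one]; ring
        _ ≤ _ := Finset.sum_le_sum fun y hy => (hCT y q (hqC y hy)).le
    have h4 := (le_abs_self _).trans h2
    linarith
  obtain ⟨e, he⟩ := colour hκ hMA (x := fun y : S => y.1) (C := C) (k := k) hfin (by omega)
    Subtype.val_injective hS.le
  have hpiece : ∀ y, ∃ c, {m | m ∈ C y ∧ e y m = c} ∈ (p y).1.1 := fun y =>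
    exists_piece _ (hCp y) (e y)
  choose c hc using hpiece
  -- a colour which is attained `κ` times
  obtain ⟨c₀, hc₀⟩ : ∃ c₀, #{y : S | c y = c₀} = κ := by
    obtain ⟨c₀, h0⟩ := Cardinal.infinite_pigeonhole c (by rw [hS]; exact hκ) (by
      rw [hS, Cardinal.mk_fin]
      exact (Cardinal.natCast_lt_aleph0).trans_le
        (Ordinal.aleph0_le_cof.2 (Cardinal.isSuccLimit_ord hκ)))
    exact ⟨c₀, h0.trans hS⟩
  let E : S → Set ℕ := fun y => {m | m ∈ C y ∧ e y m = c₀}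
  have hEp : ∀ y, c y = c₀ → E y ∈ (p y).1.1 := by
    intro y hy
    have := hc y
    rw [hy] at this
    exact this
  have hEE : ∀ y z, y ≠ z → (E y ∩ E z).Finite := by
    intro y z hyz
    apply (he y z hyz).subset
    rintro m ⟨⟨h1, h2⟩, h3, h4⟩
    exact ⟨h1, h3, h2.trans h4.symm⟩
  have hinj : Set.InjOn E {y : S | c y = c₀} := by
    intro y hy z _ hyz
    by_contra hne
    have h1 := hEE y z hne
    rw [← hyz, Set.inter_self] at h1
    exact (p y).1.infinite (hEp y hy) h1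
  refine ⟨E '' {y : S | c y = c₀}, le_antisymm ?_ ?_, ?_, ?_⟩
  · exact Cardinal.mk_image_le.trans hc₀.le
  · rw [Cardinal.mk_image_eq_of_injOn _ _ hinj, hc₀]
  · rintro _ ⟨y, hy, rfl⟩
    exact ⟨(p y).1.infinite (hEp y hy), (p y).1, hEp y hy, (p y).2⟩
  · rintro _ ⟨y, _, rfl⟩ _ ⟨z, _, rfl⟩ hne
    exact hEE y z fun h => hne (by rw [h])

end

end Pool.Agent.Y582.NC
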